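import Mathlib

set_option autoImplicit false

/-!
Cardinal arithmetic used in the uncountable case.
-/

namespace Pool.Agent.H78.ED

universe u v

open scoped Cardinal

/-- transfinite recursion with a property at every stage -/
lemma exists_rec {I : Type u} {X : Type v} [LinearOrder I] [WellFoundedLT I]
    (Φ : (i : I) → ((j : I) → j < i → X) → X → Prop) (h : ∀ i f, ∃ x, Φ i f x) :
    ∃ F : I → X, ∀ i, Φ i (fun j _ => F j) (F i) := by
  classical
  choose G hG using h
  have hwf : WellFounded ((· < ·) : I → I → Prop) := wellFounded_lt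
  refine ⟨hwf.fix G, fun i => ?_⟩
  have h1 := hG i (fun j _ => hwf.fix G j)
  rwa [← hwf.fix_eq G i] at h1

/-- cardinality of a span -/
lemma mk_span_le {R V : Type u} [Ring R] [AddCommGroup V] [Module R V] (s : Set V)
    {c : Cardinal.{u}} (hc : ℵ₀ ≤ c) (hR : #R ≤ c) (hs : #s ≤ c) : #(Submodule.span R s) ≤ c := by
  classical
  have h1 : #(Submodule.span R s) ≤ #(s →₀ R) := by
    have hsurj : Function.Surjective (fun f : s →₀ R => (⟨Finsupp.linearCombination R
        ((↑) : s → V) f, by
          rw [Finsupp.mem_span_iff_linearCombination]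
          exact ⟨f, rfl⟩⟩ : Submodule.span R s)) := by
      rintro ⟨x, hx⟩
      obtain ⟨f, hf⟩ := (Finsupp.mem_span_iff_linearCombination R s x).mp hx
      exact ⟨f, Subtype.ext hf⟩
    exact Cardinal.mk_le_of_surjective hsurj
  refine le_trans h1 ?_
  have h2 : #(s →₀ R) ≤ #(Finset (s × R)) := Cardinal.mk_le_of_injective (Finsupp.graph_injective s R)
  refine le_trans h2 ?_
  have h3 : #(s × R) ≤ c := by
    rw [Cardinal.mk_prod, Cardinal.lift_id, Cardinal.lift_id]
    exact Cardinal.mul_le_of_le hc hs hR
  by_cases hinf : Infinite (s × R)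
  · rw [Cardinal.mk_finset_of_infinite]
    exact h3
  · rw [not_infinite_iff_finite] at hinf
    have : #(Finset (s × R)) < Cardinal.aleph0 := Cardinal.lt_aleph0_of_finite _
    exact this.le.trans hc

/-- strict form -/
lemma mk_span_lt {R V : Type u} [Ring R] [AddCommGroup V] [Module R V] (s : Set V)
    {c : Cardinal.{u}} (hc : ℵ₀ < c) (hR : #R < c) (hs : #s < c) : #(Submodule.span R s) < c := by
  have h1 : #(Submodule.span R s) ≤ max (max ℵ₀ (#R)) (#s) :=
    mk_span_le s ((le_max_left _ _).trans (le_max_left _ _))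
      ((le_max_right _ _).trans (le_max_left _ _)) (le_max_right _ _)
  exact lt_of_le_of_lt h1 (max_lt (max_lt hc hR) hs)

end Pool.Agent.H78.ED
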