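import Mathlib
import Pool.Agent.H86.EndoDist.Basic
import Pool.Agent.H78.ED.Cards

set_option autoImplicit false

/-!
The transfinite construction in an abstract setting: a module `P` without `J`-torsion, a small
submodule `Pb` and a family of generic vectors.
-/

namespace Pool.Agent.H78.ED

universe u

open Pool.Agent.H86.EndoDist
open scoped Cardinal

section

variable {R : Type u} [Ring R] {J : Ideal R} {P : Type u} [AddCommGroup P] [Module R P]

/-- the value of an extension of `g` at `z`, where `J z ⊆ T` -/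
def Val (J : Ideal R) {T : Submodule R P} (g : T →ₗ[R] P) (z q : P) : Prop :=
  ∀ j ∈ J, ∃ h : j • z ∈ T, j • q = g ⟨j • z, h⟩

lemma Val.unique {T : Submodule R P} {g : T →ₗ[R] P} {z q q' : P}
    (tf : ∀ p : P, (∀ j ∈ J, j • p = 0) → p = 0) (h : Val J g z q) (h' : Val J g z q') :
    q = q' := by
  rw [← sub_eq_zero]
  apply tf
  intro j hj
  obtain ⟨h1, h2⟩ := h j hj
  obtain ⟨h3, h4⟩ := h' j hj
  rw [smul_sub, h2, h4, sub_self]

lemma Val.sub {T : Submodule R P} {g : T →ₗ[R] P} {z q z' q' : P}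
    (h : Val J g z q) (h' : Val J g z' q') : Val J g (z - z') (q - q') := by
  intro j hj
  obtain ⟨h1, h2⟩ := h j hj
  obtain ⟨h3, h4⟩ := h' j hj
  have h5 : j • (z - z') ∈ T := by
    rw [smul_sub]
    exact T.sub_mem h1 h3
  refine ⟨h5, ?_⟩
  have e1 : (⟨j • (z - z'), h5⟩ : T) = ⟨j • z, h1⟩ - ⟨j • z', h3⟩ := by
    ext1
    exact smul_sub j z z'
  rw [e1, map_sub, smul_sub, h2, h4]

open Classical in
/-- the value, if it exists -/
noncomputable def val (J : Ideal R) {T : Submodule R P} (g : T →ₗ[R] P) (z : P) : P :=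
  if h : ∃ q, Val J g z q then h.choose else 0

lemma Val.val_eq {T : Submodule R P} {g : T →ₗ[R] P} {z q : P}
    (tf : ∀ p : P, (∀ j ∈ J, j • p = 0) → p = 0) (h : Val J g z q) : val J g z = q := by
  have h1 : ∃ q, Val J g z q := ⟨q, h⟩
  have h2 : val J g z = h1.choose := dif_pos h1
  rw [h2]
  exact Val.unique tf h1.choose_spec h

/-- idempotence of `J`, moved to modules -/
lemma smul_mem_JJ (hid : ∀ x ∈ J, x ∈ (J • J : Ideal R)) {c : R} (hc : c ∈ J) (x : P)
    (N : Submodule R P) (hN : ∀ d ∈ J, d • x ∈ N) : c • x ∈ J • N := by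
  have h1 := hid c hc
  induction h1 using Submodule.smul_induction_on' with
  | smul a ha b hb =>
    rw [smul_assoc]
    exact Submodule.smul_mem_smul ha (hN b hb)
  | add s hs t ht hs' ht' =>
    have hle : (J • J : Ideal R) ≤ J := Submodule.smul_le_right
    rw [add_smul]
    exact Submodule.add_mem _ (hs' (hle hs)) (ht' (hle ht))

/-- The abstract situation. -/
structure ICtx (J : Ideal R) (Q : Ideal R) (Pb : Submodule R P) (𝒲 : Set P) (y : R)
    (κ : Cardinal.{u}) : Prop where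
  idem : ∀ x ∈ J, x ∈ (J • J : Ideal R)
  tf : ∀ p : P, (∀ j ∈ J, j • p = 0) → p = 0
  yJ : y ∈ J
  yQ : y ∉ Q
  JyQ : ∀ d ∈ J, d * y ∈ Q
  aleph : ℵ₀ < κ
  cardR : #R < κ
  cardPb : #Pb < κ
  homs : #((J • Pb : Submodule R P) →ₗ[R] P) ≤ κ
  absP : ∀ w ∈ 𝒲, ∀ α ∈ Q, α • w ∈ Pb
  absT : ∀ w ∈ 𝒲, ∀ j ∈ J, j ∈ Q → j • w ∈ J • Pb
  gen : ∀ W : Submodule R P, #W < κ → ∃ w ∈ 𝒲, ∀ α : R, α • w ∈ W → α ∈ Q

/-- In the abstract situation the ring is not admissible. -/
theorem ICtx.not_adm [J.IsTwoSided] {Q : Ideal R} {Pb : Submodule R P} {𝒲 : Set P} {y : R} {κ : Cardinal.{u}}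
    (h : ICtx J Q Pb 𝒲 y κ) (hA : Adm R) : False := by
  classical
  have hid := h.idem
  have tf := h.tf
  set T : Submodule R P := J • Pb with hT
  have hTPb : T ≤ Pb := Submodule.smul_le_right
  have hTJ : T ≤ J • T := by
    rw [hT, Submodule.smul_le]
    intro c hc p hp
    exact smul_mem_JJ hid hc p _ (fun d hd => Submodule.smul_mem_smul hd hp)
  -- the vectors `y w`
  have yw : ∀ w ∈ 𝒲, ∀ j ∈ J, j • (y • w) ∈ T := by
    intro w hw j hj
    refine smul_mem_JJ hid hj _ Pb (fun d hd => ?_)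
    rw [smul_smul]
    exact h.absP w hw _ (h.JyQ d hd)
  -- base vectors
  obtain ⟨wa, hwa, hga⟩ := h.gen Pb h.cardPb
  have hsp : ∀ s : Set P, #s < κ → #(Submodule.span R s) < κ := fun s hs =>
    mk_span_lt s h.aleph h.cardR hs
  obtain ⟨wb, hwb, hgb⟩ := h.gen (Submodule.span R ((Pb : Set P) ∪ {wa})) (by
    apply hsp
    refine lt_of_le_of_lt (Cardinal.mk_union_le _ _) ?_
    apply Cardinal.add_lt_of_lt h.aleph.le h.cardPb
    rw [Cardinal.mk_singleton]
    exact lt_of_le_of_lt Cardinal.one_le_aleph0 h.aleph)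
  set a := y • wa with ha
  set b := y • wb with hb
  -- the index set
  let I : Type u := κ.ord.ToType
  have hI : #I = κ := Cardinal.mk_ord_toType _
  have hG : #(T →ₗ[R] P) ≤ #I := by
    rw [hI]
    exact h.homs
  obtain ⟨⟨ε, hε⟩⟩ := hG
  let γ : I → (T →ₗ[R] P) := Function.invFun ε
  have hγ : Function.Surjective γ := Function.invFun_surjective hε
  let ts : Set P := {0, wa, wb}
  -- the big and the small submodules of a stage
  let WF : (i : I) → ((j : I) → j < i → P) → Submodule R P := fun i f =>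
    Submodule.span R (((Pb : Set P) ∪ {wa, wb, val J (γ i) a, val J (γ i) b}) ∪
      {z | ∃ (j : I) (hj : j < i), z = f j hj ∨ z = val J (γ j) (y • f j hj)})
  let MF : (i : I) → ((j : I) → j < i → P) → Submodule R P := fun i f =>
    Submodule.span R ((T : Set P) ∪ {z | ∃ (j : I) (hj : j < i), ∃ c ∈ J, z = c • f j hj})
  let Φ : (i : I) → ((j : I) → j < i → P) → P → Prop := fun i f x =>
    ∃ w ∈ 𝒲, (∀ α : R, α • w ∈ WF i f → α ∈ Q) ∧
      ((∃ t ∈ ts, x = t + w ∧ ∀ q, Val J (γ i) (y • x) q →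
          ¬ ∃ m ∈ MF i f, ∃ c ∈ J, q = m + c • x) ∨
        (x = w ∧ ∀ t ∈ ts, ∃ q, Val J (γ i) (y • (t + w)) q ∧
          ∃ m ∈ MF i f, ∃ c ∈ J, q = m + c • (t + w)))
  have hcard : ∀ (i : I) (f : (j : I) → j < i → P), #(WF i f) < κ := by
    intro i f
    apply hsp
    refine lt_of_le_of_lt (Cardinal.mk_union_le _ _) ?_
    apply Cardinal.add_lt_of_lt h.aleph.le
    · refine lt_of_le_of_lt (Cardinal.mk_union_le _ _) ?_
      apply Cardinal.add_lt_of_lt h.aleph.le h.cardPb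
      have : Countable ({wa, wb, val J (γ i) a, val J (γ i) b} : Set P) :=
        (Set.toFinite _).countable
      exact lt_of_le_of_lt (Cardinal.mk_le_aleph0_iff.mpr this) h.aleph
    · let f1 : Set.Iio i → P := fun j => f j.1 j.2
      let f2 : Set.Iio i → P := fun j => val J (γ j.1) (y • f j.1 j.2)
      have h1 : ({z | ∃ (j : I) (hj : j < i), z = f j hj ∨ z = val J (γ j) (y • f j hj)} : Set P)
          ⊆ Set.range f1 ∪ Set.range f2 := by
        rintro z ⟨j, hj, rfl | rfl⟩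
        · exact Or.inl ⟨⟨j, hj⟩, rfl⟩
        · exact Or.inr ⟨⟨j, hj⟩, rfl⟩
      refine lt_of_le_of_lt (Cardinal.mk_le_mk_of_subset h1) ?_
      refine lt_of_le_of_lt (Cardinal.mk_union_le _ _) ?_
      have hIio : #(Set.Iio i) < κ := by
        have := Cardinal.mk_Iio_lt i (by rw [hI]; exact (Ordinal.type_toType _).symm)
        rwa [hI] at this
      apply Cardinal.add_lt_of_lt h.aleph.le
      · exact lt_of_le_of_lt Cardinal.mk_range_le hIio
      · exact lt_of_le_of_lt Cardinal.mk_range_le hIio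
  have hΦ : ∀ i f, ∃ x, Φ i f x := by
    intro i f
    obtain ⟨w, hw, hgw⟩ := h.gen (WF i f) (hcard i f)
    by_cases hk : ∃ t ∈ ts, ∀ q, Val J (γ i) (y • (t + w)) q →
        ¬ ∃ m ∈ MF i f, ∃ c ∈ J, q = m + c • (t + w)
    · obtain ⟨t, ht, hq⟩ := hk
      exact ⟨t + w, w, hw, hgw, Or.inl ⟨t, ht, rfl, hq⟩⟩
    · push Not at hk
      refine ⟨w, w, hw, hgw, Or.inr ⟨rfl, fun t ht => ?_⟩⟩
      obtain ⟨q, hq1, hq2⟩ := hk t ht
      exact ⟨q, hq1, hq2⟩
  obtain ⟨F, hF⟩ := exists_rec Φ hΦ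
  -- the stages
  let W : I → Submodule R P := fun i => WF i (fun j _ => F j)
  let MS : Set I → Submodule R P := fun S =>
    Submodule.span R ((T : Set P) ∪ {z | ∃ j ∈ S, ∃ c ∈ J, z = c • F j})
  have hMF : ∀ i, MF i (fun j _ => F j) = MS (Set.Iio i) := by
    intro i
    simp only [MF, MS]
    congr 2
    ext z
    simp only [Set.mem_ofPred_eq, Set.mem_Iio, exists_prop]
  have hTM : ∀ S, T ≤ MS S := fun S x hx => Submodule.subset_span (Or.inl hx)
  have hFM : ∀ S, ∀ j ∈ S, ∀ c ∈ J, c • F j ∈ MS S := fun S j hj c hc =>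
    Submodule.subset_span (Or.inr ⟨j, hj, c, hc, rfl⟩)
  have hMmono : ∀ S S' : Set I, S ⊆ S' → MS S ≤ MS S' := by
    intro S S' hS
    apply Submodule.span_mono
    apply Set.union_subset_union_right
    rintro z ⟨j, hj, hz⟩
    exact ⟨j, hS hj, hz⟩
  have hPbW : ∀ i, Pb ≤ W i := fun i x hx => Submodule.subset_span (Or.inl (Or.inl hx))
  have hwaW : ∀ i, wa ∈ W i := fun i => Submodule.subset_span (Or.inl (Or.inr (by simp)))
  have hwbW : ∀ i, wb ∈ W i := fun i => Submodule.subset_span (Or.inl (Or.inr (by simp)))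
  have hvaW : ∀ i, val J (γ i) a ∈ W i := fun i =>
    Submodule.subset_span (Or.inl (Or.inr (by simp)))
  have hvbW : ∀ i, val J (γ i) b ∈ W i := fun i =>
    Submodule.subset_span (Or.inl (Or.inr (by simp)))
  have hFW : ∀ i j, j < i → F j ∈ W i := fun i j hj =>
    Submodule.subset_span (Or.inr ⟨j, hj, Or.inl rfl⟩)
  have hvW : ∀ i j, j < i → val J (γ j) (y • F j) ∈ W i := fun i j hj =>
    Submodule.subset_span (Or.inr ⟨j, hj, Or.inr rfl⟩)
  have htsW : ∀ i, ∀ t ∈ ts, t ∈ W i := by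
    rintro i t (rfl | rfl | rfl)
    · exact Submodule.zero_mem _
    · exact hwaW i
    · exact hwbW i
  have hMW : ∀ i, MS (Set.Iio i) ≤ W i := by
    intro i
    apply Submodule.span_le.mpr
    rintro z (hz | ⟨j, hj, c, _, rfl⟩)
    · exact hPbW i (hTPb hz)
    · exact Submodule.smul_mem _ _ (hFW i j hj)
  -- decomposition of the new vectors
  have hdec : ∀ i, ∃ w ∈ 𝒲, ∃ t ∈ ts, F i = t + w ∧ ∀ α : R, α • w ∈ W i → α ∈ Q := by
    intro i
    obtain ⟨w, hw, hg, ⟨t, ht, hx, _⟩ | ⟨hx, _⟩⟩ := hF i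
    · exact ⟨w, hw, t, ht, hx, hg⟩
    · exact ⟨w, hw, 0, Or.inl rfl, by rw [hx, zero_add], hg⟩
  have hts_abs : ∀ t ∈ ts, ∀ c ∈ J, c ∈ Q → c • t ∈ T := by
    rintro t (rfl | rfl | rfl) c hc hcQ
    · rw [smul_zero]; exact T.zero_mem
    · exact h.absT _ hwa c hc hcQ
    · exact h.absT _ hwb c hc hcQ
  have hts_y : ∀ t ∈ ts, ∀ j ∈ J, j • (y • t) ∈ T := by
    rintro t (rfl | rfl | rfl) j hj
    · rw [smul_zero, smul_zero]; exact T.zero_mem
    · exact yw _ hwa j hj
    · exact yw _ hwb j hj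
  have hFgen : ∀ i (c : R), c • F i ∈ W i → c ∈ Q := by
    intro i c hc
    obtain ⟨w, hw, t, ht, hx, hg⟩ := hdec i
    apply hg
    have : c • w = c • F i - c • t := by
      rw [hx, smul_add]; abel
    rw [this]
    exact Submodule.sub_mem _ hc (Submodule.smul_mem _ _ (htsW i t ht))
  have hFabs : ∀ i, ∀ c ∈ J, c ∈ Q → c • F i ∈ T := by
    intro i c hc hcQ
    obtain ⟨w, hw, t, ht, hx, hg⟩ := hdec i
    rw [hx, smul_add]
    exact T.add_mem (hts_abs t ht c hc hcQ) (h.absT w hw c hc hcQ)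
  have hFy : ∀ i, ∀ j ∈ J, j • (y • F i) ∈ T := by
    intro i j hj
    obtain ⟨w, hw, t, ht, hx, hg⟩ := hdec i
    rw [hx, smul_add, smul_add]
    exact T.add_mem (hts_y t ht j hj) (yw w hw j hj)
  -- splitting off the last vector
  have hsplit : ∀ k, ∀ x ∈ MS (Set.Iic k), ∃ p ∈ MS (Set.Iio k), ∃ c ∈ J, x = p + c • F k := by
    intro k x hx
    induction hx using Submodule.span_induction with
    | mem x hx =>
      rcases hx with hx | ⟨j, hj, c, hc, rfl⟩
      · exact ⟨x, hTM _ hx, 0, J.zero_mem, by rw [zero_smul, add_zero]⟩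
      · rcases lt_or_eq_of_le (Set.mem_Iic.mp hj) with hj | rfl
        · exact ⟨c • F j, hFM _ j hj c hc, 0, J.zero_mem, by rw [zero_smul, add_zero]⟩
        · exact ⟨0, Submodule.zero_mem _, c, hc, by rw [zero_add]⟩
    | zero => exact ⟨0, Submodule.zero_mem _, 0, J.zero_mem, by rw [zero_smul, add_zero]⟩
    | add x y _ _ hx hy =>
      obtain ⟨p, hp, c, hc, rfl⟩ := hx
      obtain ⟨p', hp', c', hc', rfl⟩ := hy
      refine ⟨p + p', Submodule.add_mem _ hp hp', c + c', J.add_mem hc hc', ?_⟩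
      rw [add_smul]; abel
    | smul r x _ hx =>
      obtain ⟨p, hp, c, hc, rfl⟩ := hx
      refine ⟨r • p, Submodule.smul_mem _ _ hp, r * c, J.mul_mem_left _ hc, ?_⟩
      rw [smul_add, mul_smul]
  -- elements of a stage lie in an earlier closed stage
  have hfin : ∀ S : Set I, ∀ x ∈ MS S, x ∈ T ∨ ∃ j ∈ S, x ∈ MS (Set.Iic j) := by
    intro S x hx
    induction hx using Submodule.span_induction with
    | mem x hx =>
      rcases hx with hx | ⟨j, hj, c, hc, rfl⟩
      · exact Or.inl hx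
      · exact Or.inr ⟨j, hj, hFM _ j (Set.mem_Iic.mpr le_rfl) c hc⟩
    | zero => exact Or.inl T.zero_mem
    | add x y _ _ hx hy =>
      rcases hx with hx | ⟨j, hj, hx⟩
      · rcases hy with hy | ⟨k, hk, hy⟩
        · exact Or.inl (T.add_mem hx hy)
        · exact Or.inr ⟨k, hk, Submodule.add_mem _ (hTM _ hx) hy⟩
      · rcases hy with hy | ⟨k, hk, hy⟩
        · exact Or.inr ⟨j, hj, Submodule.add_mem _ hx (hTM _ hy)⟩
        · rcases le_total j k with hjk | hjk
          · exact Or.inr ⟨k, hk, Submodule.add_mem _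
              (hMmono _ _ (Set.Iic_subset_Iic.mpr hjk) hx) hy⟩
          · exact Or.inr ⟨j, hj, Submodule.add_mem _ hx
              (hMmono _ _ (Set.Iic_subset_Iic.mpr hjk) hy)⟩
    | smul r x _ hx =>
      rcases hx with hx | ⟨j, hj, hx⟩
      · exact Or.inl (T.smul_mem _ hx)
      · exact Or.inr ⟨j, hj, Submodule.smul_mem _ _ hx⟩
  have hdrop : ∀ k, ∀ x ∈ MS (Set.Iic k), x ∈ W k → x ∈ MS (Set.Iio k) := by
    intro k x hx hxW
    obtain ⟨p, hp, c, hc, rfl⟩ := hsplit k x hx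
    have h1 : c • F k ∈ W k := by
      have : c • F k = (p + c • F k) - p := by abel
      rw [this]
      exact Submodule.sub_mem _ hxW (hMW k hp)
    exact Submodule.add_mem _ hp (hTM _ (hFabs k c hc (hFgen k c h1)))
  -- separation
  have hsep0 : ∀ x ∈ MS Set.univ, (∀ k, x ∈ W k) → x ∈ T := by
    intro x hx hxW
    have key : ∀ j, x ∈ MS (Set.Iic j) → x ∈ T := by
      intro j
      induction j using WellFoundedLT.induction with
      | ind j ih =>
        intro hj
        rcases hfin _ x (hdrop j x hj (hxW j)) with h1 | ⟨j', hj', h1⟩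
        · exact h1
        · exact ih j' hj' h1
    rcases hfin _ x hx with h1 | ⟨j, _, h1⟩
    · exact h1
    · exact key j h1
  have hsep1 : ∀ i, ∀ x ∈ MS Set.univ, (∀ k, i < k → x ∈ W k) → x ∈ MS (Set.Iic i) := by
    intro i x hx hxW
    have key : ∀ j, x ∈ MS (Set.Iic j) → x ∈ MS (Set.Iic i) := by
      intro j
      induction j using WellFoundedLT.induction with
      | ind j ih =>
        intro hj
        by_cases hij : j ≤ i
        · exact hMmono _ _ (Set.Iic_subset_Iic.mpr hij) hj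
        · rcases hfin _ x (hdrop j x hj (hxW j (not_le.mp hij))) with h1 | ⟨j', hj', h1⟩
          · exact hTM _ h1
          · exact ih j' hj' h1
    rcases hfin _ x hx with h1 | ⟨j, _, h1⟩
    · exact hTM _ h1
    · exact key j h1
  set M' : Submodule R P := MS Set.univ with hM'
  -- independence of `wa`, `wb` modulo `M'`
  have hind : ∀ α β : R, α • wa + β • wb ∈ M' → α ∈ Q ∧ β ∈ Q := by
    intro α β hαβ
    have h1 : α • wa + β • wb ∈ T := hsep0 _ hαβ (fun k =>
      Submodule.add_mem _ (Submodule.smul_mem _ _ (hwaW k)) (Submodule.smul_mem _ _ (hwbW k)))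
    have hβ : β ∈ Q := by
      apply hgb
      have : β • wb = (α • wa + β • wb) - α • wa := by abel
      rw [this]
      refine Submodule.sub_mem _ (Submodule.subset_span (Or.inl (hTPb h1))) ?_
      exact Submodule.smul_mem _ _ (Submodule.subset_span (Or.inr rfl))
    refine ⟨?_, hβ⟩
    apply hga
    have : α • wa = (α • wa + β • wb) - β • wb := by abel
    rw [this]
    exact Submodule.sub_mem _ (hTPb h1) (h.absP wb hwb β hβ)
  -- the module
  let M : Submodule R P := M' ⊔ Submodule.span R {a, b}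
  have hM'M : M' ≤ M := le_sup_left
  have haM : a ∈ M := Submodule.mem_sup_right (Submodule.subset_span (by simp))
  have hbM : b ∈ M := Submodule.mem_sup_right (Submodule.subset_span (by simp))
  have hmemM : ∀ x ∈ M, ∃ m ∈ M', ∃ r s : R, x = m + (r • a + s • b) := by
    intro x hx
    obtain ⟨m, hm, z, hz, rfl⟩ := Submodule.mem_sup.mp hx
    obtain ⟨r, s, rfl⟩ := Submodule.mem_span_pair.mp hz
    exact ⟨m, hm, r, s, rfl⟩
  -- `J M = M'`
  have hJM : ∀ j ∈ J, ∀ x ∈ M, j • x ∈ M' := by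
    intro j hj x hx
    obtain ⟨m, hm, r, s, rfl⟩ := hmemM x hx
    have h1 : j • (r • a) ∈ T := by
      rw [smul_smul]
      exact yw wa hwa _ (J.mul_mem_right r hj)
    have h2 : j • (s • b) ∈ T := by
      rw [smul_smul]
      exact yw wb hwb _ (J.mul_mem_right s hj)
    rw [smul_add, smul_add]
    exact Submodule.add_mem _ (Submodule.smul_mem _ _ hm) (hTM _ (T.add_mem h1 h2))
  have hM'J : M' ≤ J • M := by
    apply Submodule.span_le.mpr
    rintro z (hz | ⟨j, _, c, hc, rfl⟩)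
    · have h1 : J • T ≤ J • M := by
        rw [Submodule.smul_le]
        intro r hr n hn
        exact Submodule.smul_mem_smul hr (hM'M (hTM _ hn))
      exact h1 (hTJ hz)
    · exact smul_mem_JJ hid hc _ _ (fun d hd => hM'M (hFM _ j (Set.mem_univ j) d hd))
  have hTM0 : T ≤ M := (hTM Set.univ).trans hM'M
  -- endomorphisms preserve `M'`
  have hfM' : ∀ (f : Module.End R M) (x : P) (hx : x ∈ M'), (f ⟨x, hM'M hx⟩).1 ∈ M' := by
    intro f x hx
    let D : Submodule R P := (Submodule.comap f (Submodule.comap M.subtype M')).map M.subtype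
    have hD : J • M ≤ D := by
      rw [Submodule.smul_le]
      intro r hr n hn
      refine ⟨⟨r • n, M.smul_mem r hn⟩, ?_, rfl⟩
      show (f ⟨r • n, M.smul_mem r hn⟩).1 ∈ M'
      have e1 : (⟨r • n, M.smul_mem r hn⟩ : M) = r • ⟨n, hn⟩ := rfl
      rw [e1, map_smul]
      exact hJM r hr _ (f ⟨n, hn⟩).2
    obtain ⟨x', hx', hxx⟩ := hD (hM'J hx)
    have e1 : x' = ⟨x, hM'M hx⟩ := Subtype.ext hxx
    rw [e1] at hx'
    exact hx'
  have haM' : ∀ x ∈ M', x ∈ M := fun x hx => hM'M hx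
  have hyF : ∀ i, y • F i ∈ M' := fun i => hFM _ i (Set.mem_univ i) y h.yJ
  -- endomorphisms are scalars on `a`, `b`
  have key : ∀ f : Module.End R M, ∃ c : R,
      (f ⟨a, haM⟩).1 - c • a ∈ M' ∧ (f ⟨b, hbM⟩).1 - c • b ∈ M' := by
    intro f
    let g : T →ₗ[R] P := M.subtype.comp (f.comp (Submodule.inclusion hTM0))
    obtain ⟨i, hi⟩ := hγ g
    have hval : ∀ (z : P) (hz : z ∈ M), (∀ j ∈ J, j • z ∈ T) → Val J (γ i) z (f ⟨z, hz⟩).1 := by
      intro z hz hzT j hj
      refine ⟨hzT j hj, ?_⟩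
      rw [hi]
      show j • (f ⟨z, hz⟩).1 = (f (Submodule.inclusion hTM0 ⟨j • z, hzT j hj⟩)).1
      have e1 : Submodule.inclusion hTM0 ⟨j • z, hzT j hj⟩ = j • ⟨z, hz⟩ := rfl
      rw [e1, map_smul]
      rfl
    have hva := hval a haM (yw wa hwa)
    have hvb := hval b hbM (yw wb hwb)
    have hvF := hval (y • F i) (haM' _ (hyF i)) (hFy i)
    have hfa : (f ⟨a, haM⟩).1 ∈ W i := by
      rw [← hva.val_eq tf]; exact hvaW i
    have hfb : (f ⟨b, hbM⟩).1 ∈ W i := by
      rw [← hvb.val_eq tf]; exact hvbW i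
    have hfF : (f ⟨y • F i, haM' _ (hyF i)⟩).1 ∈ MS (Set.Iic i) := by
      apply hsep1 i _ (hfM' f _ (hyF i))
      intro k hk
      rw [← hvF.val_eq tf]
      exact hvW k i hk
    obtain ⟨w, hw, hgw, hor⟩ := hF i
    rw [hMF] at hor
    rcases hor with ⟨t, ht, hx, hq⟩ | ⟨hx, hst⟩
    · exfalso
      exact hq _ hvF (hsplit i _ hfF)
    · obtain ⟨q0, hq0, m0, hm0, c0, hc0, e0⟩ := hst 0 (Or.inl rfl)
      obtain ⟨qa, hqa, ma, hma, ca, hca, ea⟩ := hst wa (Or.inr (Or.inl rfl))
      obtain ⟨qb, hqb, mb, hmb, cb, hcb, eb⟩ := hst wb (Or.inr (Or.inr rfl))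
      rw [zero_add] at hq0 e0
      have key2 : ∀ (u q m : P) (hu : u ∈ 𝒲) (huW : u ∈ W i) (c : R) (hc : c ∈ J)
          (hm : m ∈ MS (Set.Iio i)) (e : q = m + c • (u + w)) (fu : P) (hfu : fu ∈ W i)
          (hvu : Val J (γ i) (y • u) fu) (hq : Val J (γ i) (y • (u + w)) q),
          fu - c0 • u ∈ M' := by
        intro u q m hu huW c hc hm e fu hfu hvu hq
        have h1 : fu = q - q0 := by
          have h2 := Val.sub hq hq0
          have e1 : y • (u + w) - y • w = y • u := by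
            rw [smul_add]; abel
          rw [e1] at h2
          exact Val.unique tf hvu h2
        have h3 : (c - c0) • w = fu - (m - m0) - c • u := by
          rw [h1, e, e0, sub_smul, smul_add]; abel
        have h4 : (c - c0) • w ∈ W i := by
          rw [h3]
          exact Submodule.sub_mem _ (Submodule.sub_mem _ hfu
            (Submodule.sub_mem _ (hMW i hm) (hMW i hm0))) (Submodule.smul_mem _ _ huW)
        have h5 : c - c0 ∈ Q := hgw _ h4
        have h6 : c - c0 ∈ J := J.sub_mem hc hc0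
        have h7 : fu - c0 • u = (m - m0) + ((c - c0) • w + (c - c0) • u) := by
          rw [h3, sub_smul]; abel
        rw [h7]
        refine Submodule.add_mem _ (Submodule.sub_mem _ (hMmono _ _ (Set.subset_univ _) hm)
          (hMmono _ _ (Set.subset_univ _) hm0)) (hTM _ (T.add_mem ?_ ?_))
        · exact h.absT w hw _ h6 h5
        · exact h.absT u hu _ h6 h5
      have ka := key2 wa qa ma hwa (hwaW i) ca hca hma ea _ hfa hva hqa
      have kb := key2 wb qb mb hwb (hwbW i) cb hcb hmb eb _ hfb hvb hqb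
      obtain ⟨m, hm, r, s, e⟩ := hmemM _ (f ⟨a, haM⟩).2
      have h1 : (c0 - r * y) • wa + (-(s * y)) • wb ∈ M' := by
        have : (c0 - r * y) • wa + (-(s * y)) • wb = m - ((f ⟨a, haM⟩).1 - c0 • wa) := by
          rw [e, ha, hb, sub_smul, neg_smul, mul_smul, mul_smul]; abel
        rw [this]
        exact Submodule.sub_mem _ hm ka
      have h2 := (hind _ _ h1).1
      have h3 : c0 - r * y ∈ J := J.sub_mem hc0 (J.mul_mem_left _ h.yJ)
      refine ⟨r, ?_, ?_⟩
      · have : (f ⟨a, haM⟩).1 - r • a = ((f ⟨a, haM⟩).1 - c0 • wa) + (c0 - r * y) • wa := by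
          rw [sub_smul, mul_smul, ← ha]; abel
        rw [this]
        exact Submodule.add_mem _ ka (hTM _ (h.absT wa hwa _ h3 h2))
      · have : (f ⟨b, hbM⟩).1 - r • b = ((f ⟨b, hbM⟩).1 - c0 • wb) + (c0 - r * y) • wb := by
          rw [sub_smul, mul_smul, ← hb]; abel
        rw [this]
        exact Submodule.add_mem _ kb (hTM _ (h.absT wb hwb _ h3 h2))
  -- the three lines
  have hE := hA M
  let line : (z : P) → (hz : z ∈ M) → (∀ f : Module.End R M, ∃ c : R, (f ⟨z, hz⟩).1 - c • z ∈ M') →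
      Submodule (Module.End R M) M := fun z hz hc =>
    { carrier := {x | ∃ r : R, x.1 - r • z ∈ M'}
      add_mem' := by
        rintro x x' ⟨r, hr⟩ ⟨s, hs⟩
        refine ⟨r + s, ?_⟩
        have e1 : (x + x').1 - (r + s) • z = (x.1 - r • z) + (x'.1 - s • z) := by
          rw [Submodule.coe_add, add_smul]
          abel
        rw [e1]
        exact Submodule.add_mem _ hr hs
      zero_mem' := ⟨0, by simp⟩
      smul_mem' := by
        rintro f x ⟨r, hr⟩
        obtain ⟨c, hc⟩ := hc f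
        refine ⟨r * c, ?_⟩
        have h1 := hfM' f _ hr
        have e2 : (⟨x.1 - r • z, hM'M hr⟩ : M) = x - r • ⟨z, hz⟩ := rfl
        rw [e2, map_sub, map_smul] at h1
        have e1 : (f • x).1 - (r * c) • z
            = (f x - r • f ⟨z, hz⟩).1 + r • ((f ⟨z, hz⟩).1 - c • z) := by
          rw [Module.End.smul_def, smul_sub, mul_smul]
          show (f x).1 - r • c • z = ((f x).1 - r • (f ⟨z, hz⟩).1)
            + (r • (f ⟨z, hz⟩).1 - r • c • z)
          abel
        rw [e1]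
        exact Submodule.add_mem _ h1 (Submodule.smul_mem _ _ hc) }
  have hline : ∀ z hz hc (x : M), x ∈ line z hz hc ↔ ∃ r : R, x.1 - r • z ∈ M' :=
    fun _ _ _ _ => Iff.rfl
  have hca : ∀ f : Module.End R M, ∃ c : R, (f ⟨a, haM⟩).1 - c • a ∈ M' := fun f => by
    obtain ⟨c, hc, _⟩ := key f
    exact ⟨c, hc⟩
  have hcb : ∀ f : Module.End R M, ∃ c : R, (f ⟨b, hbM⟩).1 - c • b ∈ M' := fun f => by
    obtain ⟨c, _, hc⟩ := key f
    exact ⟨c, hc⟩
  have habM : a + b ∈ M := M.add_mem haM hbM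
  have hcab : ∀ f : Module.End R M, ∃ c : R, (f ⟨a + b, habM⟩).1 - c • (a + b) ∈ M' := fun f => by
    obtain ⟨c, hc, hc'⟩ := key f
    refine ⟨c, ?_⟩
    have e1 : (⟨a + b, habM⟩ : M) = ⟨a, haM⟩ + ⟨b, hbM⟩ := rfl
    rw [e1, map_add]
    have e2 : (f ⟨a, haM⟩ + f ⟨b, hbM⟩).1 - c • (a + b)
        = ((f ⟨a, haM⟩).1 - c • a) + ((f ⟨b, hbM⟩).1 - c • b) := by
      rw [Submodule.coe_add, smul_add]; abel
    rw [e2]
    exact Submodule.add_mem _ hc hc'
  have h1 : (⟨a, haM⟩ : M) + ⟨b, hbM⟩ ∈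
      line (a + b) habM hcab ⊓ (line a haM hca ⊔ line b hbM hcb) := by
    refine ⟨⟨1, ?_⟩, ?_⟩
    · have : ((⟨a, haM⟩ : M) + ⟨b, hbM⟩).1 - (1 : R) • (a + b) = 0 := by
        rw [one_smul]
        show (a + b) - (a + b) = 0
        rw [sub_self]
      rw [this]
      exact Submodule.zero_mem _
    · apply Submodule.add_mem_sup
      · exact ⟨1, by rw [one_smul, sub_self]; exact Submodule.zero_mem _⟩
      · exact ⟨1, by rw [one_smul, sub_self]; exact Submodule.zero_mem _⟩
  rw [hE] at h1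
  obtain ⟨p, ⟨hp1, hp2⟩, q, ⟨hq1, hq2⟩, hpq⟩ := Submodule.mem_sup.mp h1
  obtain ⟨r1, hr1⟩ := (hline _ habM hcab _).mp hp1
  obtain ⟨r2, hr2⟩ := (hline _ haM hca _).mp hp2
  obtain ⟨s1, hs1⟩ := (hline _ habM hcab _).mp hq1
  obtain ⟨s2, hs2⟩ := (hline _ hbM hcb _).mp hq2
  have hr1Q : r1 * y ∈ Q := by
    have h2 : ((r1 - r2) * y) • wa + (r1 * y) • wb ∈ M' := by
      have : ((r1 - r2) * y) • wa + (r1 * y) • wb = (p.1 - r2 • a) - (p.1 - r1 • (a + b)) := by
        rw [mul_smul, mul_smul, ← ha, ← hb, sub_smul, smul_add]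
        abel
      rw [this]
      exact Submodule.sub_mem _ hr2 hr1
    exact (hind _ _ h2).2
  have hs1Q : s1 * y ∈ Q := by
    have h2 : (s1 * y) • wa + ((s1 - s2) * y) • wb ∈ M' := by
      have : (s1 * y) • wa + ((s1 - s2) * y) • wb = (q.1 - s2 • b) - (q.1 - s1 • (a + b)) := by
        rw [mul_smul, mul_smul, ← ha, ← hb, sub_smul, smul_add]
        abel
      rw [this]
      exact Submodule.sub_mem _ hs2 hs1
    exact (hind _ _ h2).1
  apply h.yQ
  have h3 : ((1 - r1 - s1) * y) • wa + ((1 - r1 - s1) * y) • wb ∈ M' := by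
    have e1 : p.1 + q.1 = a + b := congrArg Subtype.val hpq
    have : ((1 - r1 - s1) * y) • wa + ((1 - r1 - s1) * y) • wb
        = (p.1 - r1 • (a + b)) + (q.1 - s1 • (a + b)) := by
      rw [mul_smul, mul_smul, ← ha, ← hb, ← smul_add, sub_smul, sub_smul, one_smul, ← e1]
      abel
    rw [this]
    exact Submodule.add_mem _ hr1 hs1
  have h4 := (hind _ _ h3).1
  have : y = (1 - r1 - s1) * y + r1 * y + s1 * y := by noncomm_ring
  rw [this]
  exact Q.add_mem (Q.add_mem h4 hr1Q) hs1Q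

end

end Pool.Agent.H78.ED
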