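import Mathlib
import Pool.Agent.H86.EndoDist.CountableCase
import Pool.Agent.H78.ED.Abstract

set_option autoImplicit false

/-!
The tree of branches: a module without `J`-torsion with many generic vectors.
-/

namespace Pool.Agent.H78.ED

universe u

open Pool.Agent.H86.EndoDist
open scoped Cardinal

/-- chain of proper left ideals exhausting a left ideal which is not finitely generated -/
lemma exists_chain {R : Type u} [Ring R] (N : Ideal R) (hN : ¬ N.FG) :
    ∃ (Λ : Type u) (_ : LinearOrder Λ) (_ : WellFoundedLT Λ) (_ : NoMaxOrder Λ) (_ : Nonempty Λ)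
      (P : Λ → Ideal R),
      Monotone P ∧ (∀ α, P α ≤ N) ∧ (∀ α, P α ≠ N) ∧ ∀ x ∈ N, ∃ α, x ∈ P α := by
  classical
  obtain ⟨s, hs, hsN⟩ := Submodule.exists_span_set_card_eq_spanRank N
  set μ := N.spanRank with hμ
  have hinf : ℵ₀ ≤ μ := by
    by_contra hcon
    exact hN (Submodule.spanRank_finite_iff_fg.mp (not_le.mp hcon))
  let Λ : Type u := μ.ord.ToType
  have hΛ : #Λ = μ := Cardinal.mk_ord_toType _
  have hmax : NoMaxOrder Λ := Cardinal.noMaxOrder hinf
  have hne : Nonempty Λ := by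
    rw [← Cardinal.mk_ne_zero_iff, hΛ]
    intro h0
    rw [h0] at hinf
    exact absurd hinf (not_le.mpr Cardinal.aleph0_pos)
  obtain ⟨e⟩ : Nonempty (Λ ≃ s) := Cardinal.eq.mp (by rw [hΛ, hs])
  let P : Λ → Ideal R := fun α => Ideal.span ((fun β => (e β).1) '' Set.Iio α)
  have hmono : Monotone P := fun α β hαβ =>
    Ideal.span_mono (Set.image_mono (Set.Iio_subset_Iio hαβ))
  refine ⟨Λ, inferInstance, inferInstance, hmax, hne, P, hmono, ?_, ?_, ?_⟩
  · intro α
    apply Ideal.span_le.mpr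
    rintro _ ⟨β, _, rfl⟩
    rw [← hsN]
    exact Submodule.subset_span (e β).2
  · intro α hα
    have h1 : N.spanRank ≤ #((fun β => (e β).1) '' Set.Iio α) := by
      rw [← hα]
      exact Submodule.spanRank_span_le_card _
    have h2 : #(Set.Iio α) < μ := by
      have := Cardinal.mk_Iio_lt α (by rw [hΛ]; exact (Ordinal.type_toType _).symm)
      rwa [hΛ] at this
    exact absurd (h1.trans Cardinal.mk_image_le) (not_le.mpr h2)
  · intro x hx
    rw [← hsN] at hx
    induction hx using Submodule.span_induction with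
    | mem x hx =>
      obtain ⟨β, hβ⟩ := exists_gt (e.symm ⟨x, hx⟩)
      refine ⟨β, Ideal.subset_span ⟨e.symm ⟨x, hx⟩, hβ, ?_⟩⟩
      simp
    | zero =>
      obtain ⟨α⟩ := hne
      exact ⟨α, Submodule.zero_mem _⟩
    | add x y _ _ hx hy =>
      obtain ⟨α, hα⟩ := hx
      obtain ⟨β, hβ⟩ := hy
      exact ⟨max α β, Submodule.add_mem _ (hmono (le_max_left _ _) hα)
        (hmono (le_max_right _ _) hβ)⟩
    | smul r x _ hx =>
      obtain ⟨α, hα⟩ := hx
      exact ⟨α, Submodule.smul_mem _ _ hα⟩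

/-- a fast growing exhaustion -/
lemma exists_exhaustion (Λ : Type u) [LinearOrder Λ] [WellFoundedLT Λ] [NoMaxOrder Λ] [Nonempty Λ]
    (c0 : Cardinal.{u}) :
    ∃ (K : Type u) (S : Λ → Set K), c0 ≤ #K ∧ #Λ ≤ #K ∧ Monotone S ∧ (∀ x, ∃ α, x ∈ S α) ∧
      ∀ α, (2 : Cardinal.{u}) ^ #(S α) ≤ #K := by
  classical
  obtain ⟨c, hc⟩ := exists_rec (I := Λ) (X := Cardinal.{u})
    (fun α f x => x = (2 : Cardinal.{u}) ^ (c0 + Cardinal.sum (fun β : Set.Iio α => f β.1 β.2)))
    (fun α f => ⟨_, rfl⟩)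
  have hle : ∀ α, c α ≤ #(Σ α : Λ, (c α).out) := by
    intro α
    have h1 : Function.Injective (fun x : (c α).out => (⟨α, x⟩ : Σ α : Λ, (c α).out)) := by
      intro x x' he
      simpa using he
    have h2 := Cardinal.mk_le_of_injective h1
    rwa [Cardinal.mk_out] at h2
  refine ⟨Σ α : Λ, (c α).out, fun α => {p | p.1 < α}, ?_, ?_, ?_, ?_, ?_⟩
  · obtain ⟨α⟩ := (inferInstance : Nonempty Λ)
    refine le_trans ?_ (hle α)
    rw [hc α]
    refine le_trans (Cardinal.cantor c0).le ?_
    exact Cardinal.power_le_power_left two_ne_zero (self_le_add_right _ _)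
  · have hne : ∀ α, Nonempty (c α).out := by
      intro α
      rw [← Cardinal.mk_ne_zero_iff, Cardinal.mk_out, hc α]
      exact Cardinal.power_ne_zero _ two_ne_zero
    exact Cardinal.mk_le_of_injective (f := fun α : Λ => (⟨α, (hne α).some⟩ : Σ α : Λ, (c α).out))
      (fun α β he => congrArg Sigma.fst he)
  · intro α β hαβ p hp
    exact lt_of_lt_of_le hp hαβ
  · rintro ⟨β, x⟩
    obtain ⟨α, hα⟩ := exists_gt β
    exact ⟨α, hα⟩
  · intro α
    refine le_trans ?_ (hle α)
    rw [hc α]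
    apply Cardinal.power_le_power_left two_ne_zero
    refine le_trans ?_ (self_le_add_left _ _)
    let Ψ : {p : Σ α : Λ, (c α).out | p.1 < α} → Σ β : Set.Iio α, (c β.1).out :=
      fun p => ⟨⟨p.1.1, p.2⟩, p.1.2⟩
    have hΨ : Function.Injective Ψ := by
      apply Function.LeftInverse.injective (g := fun q => ⟨⟨q.1.1, q.2⟩, q.1.2⟩)
      intro p
      rfl
    refine le_trans (Cardinal.mk_le_of_injective hΨ) ?_
    rw [Cardinal.mk_sigma]
    apply Cardinal.sum_le_sum
    intro β
    rw [Cardinal.mk_out]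

section tree

variable {R : Type u} [Ring R] {Λ K : Type u} [LinearOrder Λ] (Q : Λ → Ideal R) (S : Λ → Set K)

/-- the node of the branch `C` at level `α` -/
def node (C : Set K) (α : Λ) : Set (S α) := {x | x.1 ∈ C}

/-- the module containing all branch vectors -/
abbrev PP : Type u := ∀ i : (Σ α : Λ, Set (S α)), QM (Q i.1)

open Classical in
/-- the vector of a branch -/
noncomputable def vec (C : Set K) : PP Q S :=
  fun i => if i.2 = node S C i.1 then qmk (Q i.1) 1 else 0

open Classical in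
/-- the vector of a branch cut off at level `β` -/
noncomputable def tr (C : Set K) (β : Λ) : PP Q S :=
  fun i => if i.1 < β ∧ i.2 = node S C i.1 then qmk (Q i.1) 1 else 0

lemma tr_eq (hS : Monotone S) (C : Set K) (β : Λ) :
    tr Q S C β = tr Q S (Subtype.val '' node S C β) β := by
  funext i
  have h1 : i.1 < β → node S (Subtype.val '' node S C β) i.1 = node S C i.1 := by
    intro hi
    ext x
    constructor
    · rintro ⟨z, hz, hzx⟩
      show x.1 ∈ C
      rw [← hzx]
      exact hz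
    · intro hx
      exact ⟨⟨x.1, hS hi.le x.2⟩, hx, rfl⟩
  by_cases hi : i.1 < β
  · simp only [tr, h1 hi]
  · simp only [tr, hi, false_and, if_false]

/-- the span of all truncations -/
def Pb : Submodule R (PP Q S) :=
  Submodule.span R (Set.range (fun p : Σ β : Λ, Set (S β) => tr Q S (Subtype.val '' p.2) p.1))

lemma tr_mem (hS : Monotone S) (C : Set K) (β : Λ) : tr Q S C β ∈ Pb Q S := by
  rw [tr_eq Q S hS]
  exact Submodule.subset_span ⟨⟨β, node S C β⟩, rfl⟩

lemma smul_vec (hQ : Monotone Q) (C : Set K) {β : Λ} {α : R} (hα : α ∈ Q β) :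
    α • vec Q S C = α • tr Q S C β := by
  funext i
  rw [Pi.smul_apply, Pi.smul_apply]
  by_cases hi : i.1 < β
  · simp only [vec, tr, hi, true_and]
  · have h1 : α ∈ Q i.1 := hQ (not_lt.mp hi) hα
    have h2 : tr Q S C β i = 0 := by simp only [tr, hi, false_and, if_false]
    rw [h2, smul_zero]
    simp only [vec]
    split_ifs
    · rw [smul_qmk, mul_one, qmk_eq_zero]
      exact h1
    · rw [smul_zero]

omit [LinearOrder Λ] in
lemma card_nodes (hK : ℵ₀ ≤ #K) (hΛ : #Λ ≤ #K)
    (h2 : ∀ α, (2 : Cardinal.{u}) ^ #(S α) ≤ #K) : #(Σ α : Λ, Set (S α)) ≤ #K := by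
  rw [Cardinal.mk_sigma]
  calc Cardinal.sum (fun α : Λ => #(Set (S α))) ≤ Cardinal.sum (fun _ : Λ => #K) := by
        apply Cardinal.sum_le_sum
        intro α
        rw [Cardinal.mk_set]
        exact h2 α
    _ = #Λ * #K := Cardinal.sum_const' _ _
    _ ≤ #K := Cardinal.mul_le_of_le hK hΛ le_rfl

lemma card_Pb (hK : ℵ₀ ≤ #K) (hΛ : #Λ ≤ #K) (hR : #R ≤ #K)
    (h2 : ∀ α, (2 : Cardinal.{u}) ^ #(S α) ≤ #K) : #(Pb Q S) ≤ #K := by
  apply mk_span_le _ hK hR
  exact Cardinal.mk_range_le.trans (card_nodes S hK hΛ h2)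

omit [LinearOrder Λ] in
lemma card_PP (hK : ℵ₀ ≤ #K) (hΛ : #Λ ≤ #K) (hR : #R ≤ #K)
    (h2 : ∀ α, (2 : Cardinal.{u}) ^ #(S α) ≤ #K) : #(PP Q S) ≤ 2 ^ #K := by
  have h1 : ∀ i : (Σ α : Λ, Set (S α)), #(QM (Q i.1)) ≤ #K := by
    intro i
    refine le_trans (Cardinal.mk_le_of_surjective (f := qmk (Q i.1)) ?_) hR
    intro x
    obtain ⟨t, ht⟩ := qmk_surj (Q i.1) x
    exact ⟨t, ht.symm⟩
  rw [Cardinal.mk_pi]
  calc Cardinal.prod (fun i : (Σ α : Λ, Set (S α)) => #(QM (Q i.1)))
      ≤ Cardinal.prod (fun _ : (Σ α : Λ, Set (S α)) => #K) := Cardinal.prod_le_prod _ _ h1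
    _ = #K ^ #(Σ α : Λ, Set (S α)) := Cardinal.prod_const' _ _
    _ ≤ #K ^ #K := Cardinal.power_le_power_left
        (fun h0 => by rw [h0] at hK; exact absurd hK (not_le.mpr Cardinal.aleph0_pos))
        (card_nodes S hK hΛ h2)
    _ = 2 ^ #K := Cardinal.power_self_eq hK

omit [LinearOrder Λ] in
/-- a branch is determined by its nodes -/
lemma branch_ext (hex : ∀ x, ∃ α, x ∈ S α) {C C' : Set K} (h : ∀ α, node S C α = node S C' α) :
    C = C' := by
  ext x
  obtain ⟨α, hα⟩ := hex x
  have h1 := congrArg (fun D : Set (S α) => (⟨x, hα⟩ : S α) ∈ D) (h α)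
  exact iff_of_eq h1

omit [LinearOrder Λ] in
/-- generic branches -/
lemma exists_generic (hex : ∀ x, ∃ α, x ∈ S α) (W : Submodule R (PP Q S))
    (hW : #W < 2 ^ #K) : ∃ w ∈ Set.range (vec Q S), ∀ α : R, α • w ∈ W → ∃ β, α ∈ Q β := by
  classical
  by_contra hcon
  push Not at hcon
  have h1 : ∀ C : Set K, ∃ α : R, α • vec Q S C ∈ W ∧ ∀ β, α ∉ Q β := by
    intro C
    obtain ⟨α, h1, h2⟩ := hcon (vec Q S C) ⟨C, rfl⟩
    exact ⟨α, h1, h2⟩
  choose f hf1 hf2 using h1
  have hinj : Function.Injective (fun C : Set K => (⟨f C • vec Q S C, hf1 C⟩ : W)) := by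
    intro C C' he
    have he' : f C • vec Q S C = f C' • vec Q S C' := congrArg Subtype.val he
    apply branch_ext S hex
    intro α
    by_contra hne
    have h2 := congrFun he' ⟨α, node S C α⟩
    rw [Pi.smul_apply, Pi.smul_apply] at h2
    have h3 : vec Q S C ⟨α, node S C α⟩ = qmk (Q α) 1 := by simp only [vec, if_true]
    have h4 : vec Q S C' ⟨α, node S C α⟩ = 0 := by simp only [vec, hne, if_false]
    rw [h3, h4, smul_zero, smul_qmk, mul_one, qmk_eq_zero] at h2
    exact hf2 C α h2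
  have h2 := Cardinal.mk_le_of_injective hinj
  rw [Cardinal.mk_set] at h2
  exact absurd h2 (not_le.mpr hW)

end tree

section main

variable {R : Type u} [Ring R]

theorem no_idempotent_radical (hA : Adm R)
    (hid : ∀ x ∈ Ring.jacobson R, x ∈ (Ring.jacobson R • Ring.jacobson R : Ideal R))
    (hne : ∃ x ∈ Ring.jacobson R, x ≠ 0) : False := by
  classical
  set J : Ideal R := Ring.jacobson R with hJ
  have hle : (J • J : Ideal R) ≤ J := Submodule.smul_le_right
  -- `J y ≠ 0` for some `y ∈ J`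
  obtain ⟨y, hy, b0, hb0, hby⟩ : ∃ y ∈ J, ∃ b ∈ J, b * y ≠ 0 := by
    by_contra hcon
    push Not at hcon
    obtain ⟨x, hx, hx0⟩ := hne
    apply hx0
    have h1 := hid x hx
    induction h1 using Submodule.smul_induction_on' with
    | smul a ha b hb => exact hcon b hb a ha
    | add s hs t ht hs' ht' =>
      by_cases h2 : s = 0
      · by_cases h3 : t = 0
        · rw [h2, h3, add_zero]
        · exact absurd (ht' (hle ht) h3) h3
      · exact absurd (hs' (hle hs) h2) h2
  -- the left ideal `J y`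
  let N : Ideal R := Submodule.map (LinearMap.toSpanSingleton R R y) J
  have hN : ∀ x, x ∈ N ↔ ∃ j ∈ J, j * y = x := by
    intro x
    rfl
  have hNJ : N ≤ J • N := by
    intro x hx
    obtain ⟨j, hj, rfl⟩ := (hN x).mp hx
    have := smul_mem_JJ (P := R) hid hj y N (fun d hd => (hN _).mpr ⟨d, hd, rfl⟩)
    exact this
  have hNfg : ¬ N.FG := by
    intro hfg
    have h1 := Submodule.FG.eq_bot_of_le_jacobson_smul hfg hNJ
    have h2 : b0 * y ∈ N := (hN _).mpr ⟨b0, hb0, rfl⟩
    rw [h1, Submodule.mem_bot] at h2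
    exact hby h2
  obtain ⟨Λ, _, _, _, _, P, hPmono, hPle, hPne, hPex⟩ := exists_chain N hNfg
  obtain ⟨K, S, hK0, hΛK, hSmono, hSex, hS2⟩ := exists_exhaustion Λ (max ℵ₀ (#R))
  have hK : ℵ₀ ≤ #K := (le_max_left _ _).trans hK0
  have hR : #R ≤ #K := (le_max_right _ _).trans hK0
  let Q : Λ → Ideal R := fun α => tcl J (P α)
  have hPQ : ∀ α, P α ≤ Q α := by
    intro α x hx b _
    exact (P α).mul_mem_left _ hx
  have hQmono : Monotone Q := fun α β hαβ x hx b hb => hPmono hαβ (hx b hb)
  let Qi : Ideal R := ⨆ α, Q α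
  have hQi : ∀ x, x ∈ Qi ↔ ∃ α, x ∈ Q α := by
    intro x
    exact Submodule.mem_iSup_of_directed Q hQmono.directed_le
  have hcan : #K < 2 ^ #K := Cardinal.cantor _
  have hKne : #K ≠ 0 := fun h0 => by
    rw [h0] at hK
    exact absurd hK (not_le.mpr Cardinal.aleph0_pos)
  have hPb := card_Pb Q S hK hΛK hR hS2
  have hPP := card_PP Q S hK hΛK hR hS2
  have ctx : ICtx J Qi (Pb Q S) (Set.range (vec Q S)) y (2 ^ #K) := by
    refine ⟨hid, ?_, hy, ?_, ?_, lt_of_le_of_lt hK hcan, lt_of_le_of_lt hR hcan,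
      lt_of_le_of_lt hPb hcan, ?_, ?_, ?_, ?_⟩
    · -- no torsion
      intro p hp
      funext i
      obtain ⟨t, ht⟩ := qmk_surj (Q i.1) (p i)
      have h1 : ∀ b ∈ J, b * t ∈ Q i.1 := by
        intro b hb
        have h3 := congrFun (hp b hb) i
        rw [Pi.smul_apply, Pi.zero_apply, ht, smul_qmk, qmk_eq_zero] at h3
        exact h3
      show p i = 0
      rw [ht, qmk_eq_zero]
      intro b hb
      have h2 : b • t ∈ (J • Q i.1 : Ideal R) := smul_mem_JJ (P := R) hid hb t (Q i.1) h1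
      have h3 : (J • Q i.1 : Ideal R) ≤ P i.1 := by
        rw [Submodule.smul_le]
        intro r hr n hn
        exact hn r hr
      exact h3 h2
    · rw [hQi]
      rintro ⟨α, hα⟩
      apply hPne α
      apply le_antisymm (hPle α)
      intro x hx
      obtain ⟨j, hj, rfl⟩ := (hN x).mp hx
      exact hα j hj
    · intro d hd
      rw [hQi]
      obtain ⟨α, hα⟩ := hPex (d * y) ((hN _).mpr ⟨d, hd, rfl⟩)
      exact ⟨α, hPQ α hα⟩
    · calc #((J • Pb Q S : Submodule R (PP Q S)) →ₗ[R] PP Q S)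
          ≤ #((J • Pb Q S : Submodule R (PP Q S)) → PP Q S) :=
            Cardinal.mk_le_of_injective DFunLike.coe_injective
        _ = #(PP Q S) ^ #(J • Pb Q S : Submodule R (PP Q S)) := (Cardinal.power_def _ _).symm
        _ ≤ (2 ^ #K) ^ #(J • Pb Q S : Submodule R (PP Q S)) := Cardinal.power_le_power_right hPP
        _ ≤ (2 ^ #K) ^ #K := by
            apply Cardinal.power_le_power_left (Cardinal.power_ne_zero _ two_ne_zero)
            refine le_trans ?_ hPb
            exact Cardinal.mk_le_mk_of_subset (Submodule.smul_le_right : J • Pb Q S ≤ Pb Q S)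
        _ = 2 ^ #K := by
            rw [← Cardinal.power_mul, Cardinal.mul_eq_self hK]
    · rintro _ ⟨C, rfl⟩ α hα
      obtain ⟨β, hβ⟩ := (hQi α).mp hα
      rw [smul_vec Q S hQmono C hβ]
      exact Submodule.smul_mem _ _ (tr_mem Q S hSmono C β)
    · rintro _ ⟨C, rfl⟩ j hj hjQ
      obtain ⟨β, hβ⟩ := (hQi j).mp hjQ
      rw [smul_vec Q S hQmono C hβ]
      exact Submodule.smul_mem_smul hj (tr_mem Q S hSmono C β)
    · intro W hW
      obtain ⟨w, hw, h1⟩ := exists_generic Q S hSex W hW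
      exact ⟨w, hw, fun α hα => (hQi α).mpr (h1 α hα)⟩
  exact ctx.not_adm hA

/-- Exotic rings are not admissible. -/
theorem exotic_not_adm (h : Exotic R) (hA : Adm R) : False := by
  obtain ⟨x, hx0, hx⟩ := h.ne
  have hxJ : x ∈ Ring.jacobson R := (mem_jacobson x).mpr hx
  apply no_idempotent_radical hA
  · intro z hz
    apply h.least (Ring.jacobson R • Ring.jacobson R : Ideal R)
    · intro w hw r
      induction hw using Submodule.smul_induction_on' with
      | smul a ha b hb =>
        have e1 : (a • b) * r = a • (b * r) := by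
          rw [show a • b = a * b from rfl, show a • (b * r) = a * (b * r) from rfl, mul_assoc]
        rw [e1]
        exact Submodule.smul_mem_smul ha ((Ring.jacobson R).mul_mem_right r hb)
      | add s _ t _ hs ht =>
        rw [add_mul]
        exact Submodule.add_mem _ hs ht
    · intro h0
      have h1 : ∃ r, x * r * x ≠ 0 := by
        by_contra hcon
        push Not at hcon
        rcases h.prime x x hcon with h2 | h2
        · exact hx0 h2
        · exact hx0 h2
      obtain ⟨r, hr⟩ := h1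
      apply hr
      have h2 : x * r * x ∈ (Ring.jacobson R • Ring.jacobson R : Ideal R) := by
        rw [mul_assoc]
        exact Submodule.smul_mem_smul hxJ ((Ring.jacobson R).mul_mem_left r hxJ)
      rw [h0, Ideal.mem_bot] at h2
      exact h2
    · exact (mem_jacobson z).mp hz
  · exact ⟨x, hxJ, hx0⟩

/-- Admissible rings are finite products of Artinian chain rings. -/
theorem product_of_adm (hA : Adm R) :
    ∃ (n : ℕ) (S : Fin n → Type u) (_ : ∀ i, Ring (S i)),
      Nonempty (R ≃+* ∀ i, S i) ∧ ∀ i, IsArtinianChainRing (S i) := by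
  apply hA.product
  intro x hx
  by_contra hxn
  obtain ⟨S, _, φ, _, hS, hE⟩ := hA.exists_exotic ⟨x, hx, hxn⟩
  exact exotic_not_adm hE hS

end main

end Pool.Agent.H78.ED
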